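import Mathlib

/-!
# The Houdré–Tetali upper inequality fails for simple random walks on graphs
-/

set_option autoImplicit false

namespace Pool.Agent.Results.MP_6dcedf_co.Unweighted

open Finset
open scoped Classical

/-! ### the shift boundary -/

section shift

variable {Γ : Type} [AddCommGroup Γ] [Fintype Γ] (S : Finset Γ)

/-- the number of elements of `S` moved out of `S` by `g` -/
noncomputable def D (g : Γ) : ℝ := ((S.filter fun v => v + g ∉ S).card : ℝ)

omit [Fintype Γ] in
lemma D_nonneg (g : Γ) : 0 ≤ D S g := Nat.cast_nonneg _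

omit [Fintype Γ] in
lemma D_add (g g' : Γ) : D S (g + g') ≤ D S g + D S g' := by
  rw [D, D, D]
  norm_cast
  have h1 : (S.filter fun v => v + (g + g') ∉ S) ⊆
      (S.filter fun v => v + g ∉ S) ∪ (S.filter fun v => v + g' ∉ S).image (fun w => w - g) := by
    intro v hv
    rw [mem_filter] at hv
    rw [mem_union, mem_filter, mem_image]
    by_cases h : v + g ∈ S
    · right
      refine ⟨v + g, ?_, by abel⟩
      rw [mem_filter]
      refine ⟨h, ?_⟩
      rw [add_assoc]; exact hv.2
    · exact Or.inl ⟨hv.1, h⟩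
  refine (card_le_card h1).trans ((card_union_le _ _).trans ?_)
  exact Nat.add_le_add_left card_image_le _

omit [Fintype Γ] in
lemma D_neg (g : Γ) : D S (-g) = D S g := by
  have h1 : ∀ k : Γ, D S k = (S.card : ℝ) - (S.filter fun v => v + k ∈ S).card := by
    intro k
    have := S.card_filter_add_card_filter_not (fun v => v + k ∈ S)
    rw [D, ← this]
    push_cast
    ring
  rw [h1, h1]
  congr 2
  refine Finset.card_nbij' (fun v => v + -g) (fun v => v + g) ?_ ?_ ?_ ?_
  · intro v hv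
    simp only [coe_filter, Set.mem_ofPred_eq] at hv ⊢
    refine ⟨hv.2, ?_⟩
    rw [neg_add_cancel_right]; exact hv.1
  · intro v hv
    simp only [coe_filter, Set.mem_ofPred_eq] at hv ⊢
    refine ⟨hv.2, ?_⟩
    rw [add_neg_cancel_right]; exact hv.1
  · intro v _; simp
  · intro v _; simp

lemma sum_D : ∑ g, D S g = (S.card : ℝ) * ((Fintype.card Γ : ℝ) - S.card) := by
  have hc : (Fintype.card Γ : ℝ) - S.card = (Sᶜ.card : ℝ) := by
    rw [card_compl, Nat.cast_sub (card_le_univ S)]
  rw [hc]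
  simp only [D, card_filter]
  push_cast
  rw [Finset.sum_comm, Finset.sum_congr rfl (g := fun _ => (Sᶜ.card : ℝ))]
  · rw [sum_const, nsmul_eq_mul]
  · intro v _
    rw [← Equiv.sum_comp (Equiv.addLeft (-v)) (fun g => if v + g ∉ S then (1 : ℝ) else 0)]
    simp only [Equiv.coe_addLeft, add_neg_cancel_left]
    rw [Finset.sum_ite]
    simp only [sum_const_zero, add_zero, sum_const, nsmul_eq_mul, mul_one]
    congr 2
    ext x; simp

end shift

/-! ### averages over the layers -/

section layers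

variable {H : Type} [AddCommGroup H] [Fintype H] {n : ℕ} [NeZero n]
  (S : Finset (ZMod n × H)) (K : ℕ → AddSubgroup H)

/-- average of the shift boundary over the layer `t` -/
noncomputable def Dt (t : ℕ) : ℝ :=
  (∑ h : K t, D S ((2 : ZMod n) ^ t, (h : H))) / Fintype.card (K t)

/-- average of the shift boundary over a fibre -/
noncomputable def E (z : ZMod n) : ℝ := (∑ h : H, D S (z, h)) / Fintype.card H

omit [NeZero n] in
lemma Dt_nonneg (t : ℕ) : 0 ≤ Dt S K t :=
  div_nonneg (Finset.sum_nonneg fun _ _ => D_nonneg _ _) (Nat.cast_nonneg _)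

omit [NeZero n] in
lemma card_pos (t : ℕ) : (0 : ℝ) < Fintype.card (K t) := by
  exact_mod_cast Fintype.card_pos

omit [NeZero n] in
lemma Dt_succ (t : ℕ) (hK : K (t + 1) ≤ K t) : Dt S K (t + 1) ≤ 2 * Dt S K t := by
  have h1 : ∀ h : K (t + 1), D S ((2 : ZMod n) ^ (t + 1), (h : H)) ≤ 2 * Dt S K t := by
    intro h
    have h2 : ∀ k : K t, D S ((2 : ZMod n) ^ (t + 1), (h : H))
        ≤ D S ((2 : ZMod n) ^ t, (k : H)) +
          D S ((2 : ZMod n) ^ t, (((⟨h, hK h.2⟩ : K t) - k : K t) : H)) := by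
      intro k
      refine le_trans (le_of_eq ?_) (D_add S _ _)
      congr 1
      ext
      · simp [pow_succ, mul_two]
      · simp
    have h3 := Finset.sum_le_sum (s := univ) fun k _ => h2 k
    have h4 : ∑ k : K t, D S ((2 : ZMod n) ^ t, (((⟨h, hK h.2⟩ : K t) - k : K t) : H))
        = ∑ k : K t, D S ((2 : ZMod n) ^ t, (k : H)) :=
      Equiv.sum_comp (Equiv.subLeft (⟨h, hK h.2⟩ : K t))
        (fun k : K t => D S ((2 : ZMod n) ^ t, (k : H)))
    rw [sum_const, nsmul_eq_mul, Finset.sum_add_distrib, h4, card_univ] at h3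
    have hc := card_pos K t
    rw [Dt, ← mul_div_assoc, le_div_iff₀ hc]
    linarith
  rw [Dt, div_le_iff₀ (card_pos K (t + 1))]
  refine (Finset.sum_le_sum fun h _ => h1 h).trans ?_
  rw [sum_const, nsmul_eq_mul, card_univ]
  apply le_of_eq; ring

omit [NeZero n] in
lemma E_add (z : ZMod n) (t : ℕ) : E S (z + 2 ^ t) ≤ E S z + Dt S K t := by
  have hH : (0 : ℝ) < Fintype.card H := by exact_mod_cast Fintype.card_pos
  have hc := card_pos K t
  have h1 : ∀ k : K t, ∑ h : H, D S (z + 2 ^ t, h)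
      ≤ ∑ h : H, D S (z, h) + Fintype.card H * D S ((2 : ZMod n) ^ t, (k : H)) := by
    intro k
    have h2 : ∀ h : H, D S (z + 2 ^ t, h) ≤ D S (z, h - k) + D S ((2 : ZMod n) ^ t, (k : H)) := by
      intro h
      refine le_trans (le_of_eq ?_) (D_add S _ _)
      congr 1
      ext
      · simp
      · simp
    have h3 := Finset.sum_le_sum (s := univ) fun h _ => h2 h
    have h5 : ∑ h : H, D S (z, h - (k : H)) = ∑ h : H, D S (z, h) :=
      Equiv.sum_comp (Equiv.subRight (k : H)) (fun h => D S (z, h))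
    rw [Finset.sum_add_distrib, h5, sum_const, nsmul_eq_mul, card_univ] at h3
    exact h3
  have h4 := Finset.sum_le_sum (s := univ) fun k _ => h1 k
  rw [sum_const, nsmul_eq_mul, Finset.sum_add_distrib, sum_const, nsmul_eq_mul, card_univ,
    ← Finset.mul_sum] at h4
  rw [E, E, Dt, div_add_div _ _ hH.ne' hc.ne', div_le_div_iff₀ hH (mul_pos hH hc)]
  nlinarith

omit [NeZero n] in
lemma E_zero (h0 : K 0 = ⊤) : E S (0 : ZMod n) ≤ 2 * Dt S K 0 := by
  have hH : (0 : ℝ) < Fintype.card H := by exact_mod_cast Fintype.card_pos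
  have h1 : ∀ h : H, D S ((0 : ZMod n), h) ≤ 2 * Dt S K 0 := by
    intro h
    have hmem : ∀ x : H, x ∈ K 0 := by intro x; rw [h0]; trivial
    have h2 : ∀ k : K 0, D S ((0 : ZMod n), h) ≤ D S ((2 : ZMod n) ^ 0, (k : H)) +
        D S ((2 : ZMod n) ^ 0, ((k - (⟨h, hmem h⟩ : K 0) : K 0) : H)) := by
      intro k
      rw [← D_neg S ((2 : ZMod n) ^ 0, ((k - (⟨h, hmem h⟩ : K 0) : K 0) : H))]
      refine le_trans (le_of_eq ?_) (D_add S _ _)
      congr 1
      ext
      · simp
      · simp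
    have h3 := Finset.sum_le_sum (s := univ) fun k _ => h2 k
    have h4 : ∑ k : K 0, D S ((2 : ZMod n) ^ 0, ((k - (⟨h, hmem h⟩ : K 0) : K 0) : H))
        = ∑ k : K 0, D S ((2 : ZMod n) ^ 0, (k : H)) :=
      Equiv.sum_comp (Equiv.subRight (⟨h, hmem h⟩ : K 0))
        (fun k : K 0 => D S ((2 : ZMod n) ^ 0, (k : H)))
    rw [sum_const, nsmul_eq_mul, Finset.sum_add_distrib, h4, card_univ] at h3
    have hc := card_pos K 0
    rw [Dt, ← mul_div_assoc, le_div_iff₀ hc]
    linarith
  rw [E, div_le_iff₀ hH]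
  refine (Finset.sum_le_sum fun h _ => h1 h).trans ?_
  rw [sum_const, nsmul_eq_mul, card_univ]
  apply le_of_eq; ring

omit [NeZero n] in
lemma E_nat (h0 : K 0 = ⊤) (m : ℕ) : ∀ z : ℕ, z < 2 ^ m →
    E S (z : ZMod n) ≤ 2 * Dt S K 0 + ∑ t ∈ range m, Dt S K t := by
  induction m with
  | zero =>
    intro z hz
    have : z = 0 := by simpa using hz
    subst this
    simpa using E_zero S K h0
  | succ m ih =>
    intro z hz
    rw [Finset.sum_range_succ]
    by_cases h : z < 2 ^ m
    · have := ih z h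
      have := Dt_nonneg S K m
      linarith
    · push Not at h
      have h1 := ih (z - 2 ^ m) (by rw [pow_succ] at hz; omega)
      have h2 := E_add S K ((z - 2 ^ m : ℕ) : ZMod n) m
      have h3 : ((z - 2 ^ m : ℕ) : ZMod n) + 2 ^ m = (z : ZMod n) := by
        rw [Nat.cast_sub h]; push_cast; ring
      rw [h3] at h2
      linarith

end layers

/-- the total boundary is controlled by the layers -/
lemma total {H : Type} [AddCommGroup H] [Fintype H] (T : ℕ) (hT : 0 < T)
    (S : Finset (ZMod (2 ^ T) × H)) (K : ℕ → AddSubgroup H) (h0 : K 0 = ⊤) :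
    (S.card : ℝ) * ((2 ^ T * Fintype.card H : ℝ) - S.card)
      ≤ 3 * (2 ^ T * Fintype.card H) * ∑ t ∈ range T, Dt S K t := by
  have hne : NeZero (2 ^ T) := ⟨by positivity⟩
  have hH : (0 : ℝ) < Fintype.card H := by exact_mod_cast Fintype.card_pos
  have hcard : (2 ^ T * Fintype.card H : ℝ) = Fintype.card (ZMod (2 ^ T) × H) := by
    rw [Fintype.card_prod, ZMod.card]; push_cast; ring
  nth_rewrite 1 [hcard]
  rw [← sum_D, Fintype.sum_prod_type]
  have h1 : ∀ z : ZMod (2 ^ T), ∑ h : H, D S (z, h)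
      ≤ Fintype.card H * (3 * ∑ t ∈ range T, Dt S K t) := by
    intro z
    have h2 := E_nat S K h0 T z.val (ZMod.val_lt z)
    rw [ZMod.natCast_zmod_val] at h2
    have h3 : Dt S K 0 ≤ ∑ t ∈ range T, Dt S K t :=
      Finset.single_le_sum (f := fun t => Dt S K t) (fun t _ => Dt_nonneg S K t)
        (mem_range.mpr hT)
    rw [E, div_le_iff₀ hH] at h2
    nlinarith
  refine (Finset.sum_le_sum fun z _ => h1 z).trans ?_
  rw [sum_const, nsmul_eq_mul, card_univ, ZMod.card]
  push_cast
  apply le_of_eq; ring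

/-- Chebyshev's inequality for the layers -/
lemma cheb {H : Type} [AddCommGroup H] [Fintype H] (T : ℕ) {n : ℕ}
    (S : Finset (ZMod n × H)) (K : ℕ → AddSubgroup H) (hK : Antitone K) :
    (T : ℝ) * ∑ t ∈ range T, Dt S K t ≤ 2 ^ T * ∑ t ∈ range T, Dt S K t / 2 ^ t := by
  have hanti : Antitone fun t : ℕ => Dt S K t / 2 ^ t := by
    refine antitone_nat_of_succ_le fun t => ?_
    have := Dt_succ S K t (hK (Nat.le_succ t))
    rw [div_le_div_iff₀ (by positivity) (by positivity), pow_succ]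
    have h2 : (0 : ℝ) < 2 ^ t := by positivity
    nlinarith
  have hmono : Monotone fun t : ℕ => (2 : ℝ) ^ t := by
    intro a b hab
    exact pow_le_pow_right₀ (by norm_num) hab
  have h := (hanti.antivary hmono).antivaryOn (range T) |>.card_mul_sum_le_sum_mul_sum
  rw [card_range] at h
  have h3 : ∀ t ∈ range T, Dt S K t / 2 ^ t * 2 ^ t = Dt S K t := by
    intro t _
    exact div_mul_cancel₀ _ (by positivity)
  rw [Finset.sum_congr rfl h3] at h
  refine h.trans ?_
  rw [mul_comm]
  refine mul_le_mul_of_nonneg_right ?_ (Finset.sum_nonneg fun t _ =>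
    div_nonneg (Dt_nonneg S K t) (by positivity))
  have h4 : ∀ m : ℕ, ∑ t ∈ range m, (2 : ℝ) ^ t ≤ 2 ^ m := by
    intro m
    induction m with
    | zero => simp
    | succ m ih => rw [Finset.sum_range_succ, pow_succ]; linarith
  exact h4 T

/-- a dyadic sum -/
lemma dyadic (Y : ℝ) (hY : 0 ≤ Y) (T : ℕ) (y : ℕ → ℝ) (h1 : ∀ t < T, y t ≤ 1)
    (h2 : ∀ t < T, y t ≤ 4 ^ t * Y ^ 2) : ∑ t ∈ range T, y t / 2 ^ t ≤ 4 * Y := by
  by_cases hY1 : 1 ≤ Y
  · have h3 : ∀ m ≤ T, ∑ t ∈ range m, y t / 2 ^ t ≤ 2 - 2 / 2 ^ m := by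
      intro m
      induction m with
      | zero => intro _; simp
      | succ m ih =>
        intro hm
        rw [Finset.sum_range_succ]
        have h4 := ih (by omega)
        have h5 : y m / 2 ^ m ≤ 1 / 2 ^ m :=
          div_le_div_of_nonneg_right (h1 m (by omega)) (by positivity)
        have h6 : (2 : ℝ) / 2 ^ (m + 1) = 1 / 2 ^ m := by
          rw [pow_succ]; field_simp
        have h7 : (2 : ℝ) / 2 ^ m = 2 * (1 / 2 ^ m) := by ring
        linarith
    have h8 := h3 T le_rfl
    have h9 : (0 : ℝ) < 2 / 2 ^ T := by positivity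
    linarith
  · push Not at hY1
    have h3 : ∀ m ≤ T, ∑ t ∈ range m, y t / 2 ^ t ≤
        if Y ≤ 1 / 2 ^ m then Y ^ 2 * 2 ^ m else 4 * Y - 2 * (1 / 2 ^ m) := by
      intro m
      induction m with
      | zero =>
        intro _
        simp only [range_zero, sum_empty, pow_zero, mul_one, div_one]
        rw [if_pos hY1.le]
        positivity
      | succ m ih =>
        intro hm
        have h4 := ih (by omega)
        rw [Finset.sum_range_succ]
        set x : ℝ := 1 / 2 ^ m with hx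
        have hxpos : 0 < x := by positivity
        have hx2 : (1 : ℝ) / 2 ^ (m + 1) = x / 2 := by
          rw [hx, pow_succ]; field_simp
        have h2m : (2 : ℝ) ^ m = 1 / x := by rw [hx]; field_simp
        have h2m1 : (2 : ℝ) ^ (m + 1) = 2 / x := by rw [pow_succ, h2m]; ring
        have h4m : (4 : ℝ) ^ m = 1 / x ^ 2 := by
          rw [show (4 : ℝ) = 2 ^ 2 by norm_num, ← pow_mul, mul_comm, pow_mul, h2m]
          field_simp
        have hy1 : y m / 2 ^ m ≤ x := by
          rw [h2m, div_div_eq_mul_div, div_one]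
          calc y m * x ≤ 1 * x := mul_le_mul_of_nonneg_right (h1 m (by omega)) hxpos.le
            _ = x := one_mul x
        have hy2 : y m / 2 ^ m ≤ Y ^ 2 / x := by
          rw [h2m, div_div_eq_mul_div, div_one]
          have h5 := h2 m (by omega)
          rw [h4m] at h5
          calc y m * x ≤ (1 / x ^ 2 * Y ^ 2) * x := mul_le_mul_of_nonneg_right h5 hxpos.le
            _ = Y ^ 2 / x := by field_simp
        rw [h2m] at h4
        rw [hx2, h2m1]
        by_cases hc : Y ≤ x
        · rw [if_pos hc] at h4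
          by_cases hc2 : Y ≤ x / 2
          · rw [if_pos hc2]
            have : Y ^ 2 * (2 / x) = Y ^ 2 * (1 / x) + Y ^ 2 / x := by ring
            linarith
          · rw [if_neg hc2]
            push Not at hc2
            have h5 : Y ^ 2 * (1 / x) + Y ^ 2 / x ≤ 4 * Y - 2 * (x / 2) := by
              have h6 : Y ^ 2 * (1 / x) + Y ^ 2 / x = 2 * Y ^ 2 / x := by ring
              rw [h6, div_le_iff₀ hxpos]
              nlinarith
            linarith
        · rw [if_neg hc] at h4
          push Not at hc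
          rw [if_neg (by linarith)]
          linarith
    have h8 := h3 T le_rfl
    split_ifs at h8 with hc
    · have h9 : Y ^ 2 * 2 ^ T ≤ Y := by
        have h10 : Y * 2 ^ T ≤ 1 := by
          rw [le_div_iff₀ (by positivity)] at hc; exact hc
        nlinarith
      linarith
    · have : (0 : ℝ) < 1 / 2 ^ T := by positivity
      linarith

/-! ### simple random walks -/

section walk

variable {V : Type} [Fintype V] (G : SimpleGraph V)

/-- the transition matrix of the simple random walk -/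
noncomputable def walk : Matrix V V ℝ := fun v u => if G.Adj v u then 1 / (G.degree v : ℝ) else 0

/-- the stationary distribution of the simple random walk -/
noncomputable def stat (v : V) : ℝ := (G.degree v : ℝ) / (2 * G.edgeFinset.card)

/-- `phi p G` is the quantity `φ_p` of the simple random walk on `G` -/
noncomputable def phi (p : ℝ) : ℝ :=
  sInf {x : ℝ | ∃ S : Finset V, S.Nonempty ∧ ∑ v ∈ S, stat G v ≤ 1 / 2 ∧
    x = (∑ v ∈ S, stat G v * (∑ u with u ∉ S, walk G v u) ^ p) / ∑ v ∈ S, stat G v}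

/-- the second smallest eigenvalue of `I - P`, with multiplicity: the largest `t` such that at most
one root of the characteristic polynomial is smaller than `t` -/
noncomputable def lam2 : ℝ :=
  sSup {t : ℝ | ((1 - walk G).charpoly.roots.filter (· < t)).card ≤ 1}

lemma root_of {M : Matrix V V ℝ} {mu : ℝ} {x : V → ℝ} (hx : x ≠ 0)
    (h : M.mulVec x = mu • x) : mu ∈ M.charpoly.roots := by
  rw [Polynomial.mem_roots (Matrix.charpoly_monic M).ne_zero, Polynomial.IsRoot.def,
    Matrix.eval_charpoly, ← Matrix.exists_mulVec_eq_zero_iff]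
  refine ⟨x, hx, ?_⟩
  rw [Matrix.sub_mulVec, h]
  ext i
  simp [Matrix.scalar_apply]

lemma lam2_le {θ : ℝ} (hθ : 0 < θ) {f : V → ℝ} (hf : f ≠ 0)
    (h : (walk G).mulVec f = (1 - θ) • f) (hdeg : ∀ v, 0 < G.degree v) : lam2 G ≤ θ := by
  have hne : Nonempty V := by
    obtain ⟨i, -⟩ := Function.ne_iff.mp hf
    exact ⟨i⟩
  have h1 : θ ∈ (1 - walk G).charpoly.roots := by
    refine root_of hf ?_
    rw [Matrix.sub_mulVec, h, Matrix.one_mulVec, sub_smul, one_smul, sub_sub_cancel]
  have h0 : (0 : ℝ) ∈ (1 - walk G).charpoly.roots := by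
    refine root_of (x := fun _ => 1) ?_ ?_
    · intro hc
      have := congrFun hc (Classical.arbitrary V)
      simp at this
    · rw [Matrix.sub_mulVec, Matrix.one_mulVec, zero_smul, sub_eq_zero]
      ext v
      rw [Matrix.mulVec, dotProduct]
      simp only [walk, mul_one]
      rw [← Finset.sum_filter, ← SimpleGraph.neighborFinset_eq_filter, sum_const,
        SimpleGraph.card_neighborFinset_eq_degree, nsmul_eq_mul]
      have : (G.degree v : ℝ) ≠ 0 := by exact_mod_cast (hdeg v).ne'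
      field_simp
  refine Real.sSup_le ?_ hθ.le
  intro t ht
  simp only [Set.mem_ofPred_eq] at ht
  by_contra hcon
  push Not at hcon
  have h2 : ({0, θ} : Multiset ℝ) ≤ (1 - walk G).charpoly.roots.filter (· < t) := by
    rw [Multiset.le_iff_subset]
    · intro x hx
      rw [Multiset.mem_filter]
      simp only [Multiset.insert_eq_cons, Multiset.mem_cons, Multiset.mem_singleton] at hx
      rcases hx with rfl | rfl
      · exact ⟨h0, by linarith⟩
      · exact ⟨h1, hcon⟩
    · simp only [Multiset.insert_eq_cons, Multiset.nodup_cons, Multiset.mem_singleton,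
        Multiset.nodup_singleton, and_true]
      exact hθ.ne
  have h3 := Multiset.card_le_card h2
  simp at h3
  omega

lemma le_phi {d : ℕ} (hd : 0 < d) (hreg : ∀ v, G.degree v = d) (hV : 2 ≤ Fintype.card V) {c : ℝ}
    (h : ∀ S : Finset V, S.Nonempty → 2 * S.card ≤ Fintype.card V →
      c * S.card ≤ ∑ v ∈ S, √(((univ.filter fun u => u ∉ S ∧ G.Adj v u).card : ℝ) / d)) :
    c ≤ phi G (1 / 2) := by
  have hV0 : (0 : ℝ) < Fintype.card V := by exact_mod_cast (by omega : 0 < Fintype.card V)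
  have hd0 : (0 : ℝ) < d := by exact_mod_cast hd
  have hE : (2 * G.edgeFinset.card : ℝ) = Fintype.card V * d := by
    have h1 := G.sum_degrees_eq_twice_card_edges
    simp only [hreg, sum_const, card_univ, smul_eq_mul] at h1
    exact_mod_cast h1.symm
  have hst : ∀ v, stat G v = 1 / Fintype.card V := by
    intro v
    rw [stat, hreg, hE]
    field_simp
  refine le_csInf ?_ ?_
  · have : Nonempty V := Fintype.card_pos_iff.mp (by omega)
    refine ⟨_, {Classical.arbitrary V}, Finset.singleton_nonempty _, ?_, rfl⟩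
    rw [Finset.sum_singleton, hst]
    have h2 : (2 : ℝ) ≤ Fintype.card V := by exact_mod_cast hV
    exact one_div_le_one_div_of_le (by norm_num) h2
  · rintro x ⟨S, hS, hS2, rfl⟩
    simp only [hst] at hS2 ⊢
    rw [sum_const, nsmul_eq_mul] at hS2 ⊢
    have hS0 : (0 : ℝ) < S.card := by exact_mod_cast hS.card_pos
    have hle : 2 * S.card ≤ Fintype.card V := by
      rw [mul_one_div, div_le_div_iff₀ hV0 (by norm_num)] at hS2
      have : (2 * S.card : ℝ) ≤ Fintype.card V := by linarith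
      exact_mod_cast this
    have h1 := h S hS hle
    rw [le_div_iff₀ (by positivity), ← Finset.mul_sum]
    have h2 : ∀ v ∈ S, (∑ u with u ∉ S, walk G v u) ^ (1 / 2 : ℝ)
        = √(((univ.filter fun u => u ∉ S ∧ G.Adj v u).card : ℝ) / d) := by
      intro v _
      rw [← Real.sqrt_eq_rpow]
      congr 1
      simp only [walk, hreg]
      rw [← Finset.sum_filter, Finset.filter_filter, sum_const, nsmul_eq_mul, mul_one_div]
    rw [Finset.sum_congr rfl h2]
    calc c * (S.card * (1 / Fintype.card V)) = 1 / Fintype.card V * (c * S.card) := by ring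
      _ ≤ _ := mul_le_mul_of_nonneg_left h1 (by positivity)

end walk

/-! ### the graphs -/

section graph

variable (T : ℕ)

/-- the vertex set -/
abbrev Gam : Type := ZMod (2 ^ T) × ZMod (4 ^ T)

/-- the multiples of `4 ^ t` -/
def Ks (t : ℕ) : AddSubgroup (ZMod (4 ^ T)) := AddSubgroup.zmultiples ((4 ^ t : ℕ) : ZMod (4 ^ T))

instance : NeZero (2 ^ T) := ⟨by positivity⟩
instance : NeZero (4 ^ T) := ⟨by positivity⟩

lemma Ks_zero : Ks T 0 = ⊤ := by
  rw [eq_top_iff]
  intro x _
  rw [Ks, AddSubgroup.mem_zmultiples_iff]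
  exact ⟨(x.val : ℤ), by simp⟩

lemma Ks_anti : Antitone (Ks T) := by
  intro a b hab
  rw [Ks, Ks, AddSubgroup.zmultiples_le, AddSubgroup.mem_zmultiples_iff]
  refine ⟨((4 ^ (b - a) : ℕ) : ℤ), ?_⟩
  rw [zsmul_eq_mul]
  push_cast
  rw [← pow_add, Nat.sub_add_cancel hab]

lemma Ks_card {t : ℕ} (ht : t ≤ T) : Fintype.card (Ks T t) = 4 ^ (T - t) := by
  rw [← Nat.card_eq_fintype_card, Ks, Nat.card_zmultiples,
    ZMod.addOrderOf_coe _ (by positivity),
    Nat.gcd_eq_right (pow_dvd_pow 4 ht), Nat.pow_div ht (by norm_num)]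

/-- the layer `t` of generators -/
noncomputable def layer (t : ℕ) : Finset (Gam T) :=
  univ.filter fun g => g.1 = 2 ^ t ∧ g.2 ∈ Ks T t

/-- the symmetric generating set -/
noncomputable def X : Finset (Gam T) :=
  univ.filter fun g => ∃ t < T, g ∈ layer T t ∨ -g ∈ layer T t

lemma mem_layer {t : ℕ} {g : Gam T} : g ∈ layer T t ↔ g.1 = 2 ^ t ∧ g.2 ∈ Ks T t := by
  simp [layer]

lemma mem_X {g : Gam T} : g ∈ X T ↔ ∃ t < T, g ∈ layer T t ∨ -g ∈ layer T t := by
  simp [X]

lemma neg_mem_X {g : Gam T} : -g ∈ X T ↔ g ∈ X T := by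
  rw [mem_X, mem_X]
  refine exists_congr fun t => and_congr_right fun _ => ?_
  rw [neg_neg, or_comm]

lemma two_pow_ne {t : ℕ} (ht : t < T) : (2 : ZMod (2 ^ T)) ^ t ≠ 0 := by
  intro h
  have h1 : ((2 ^ t : ℕ) : ZMod (2 ^ T)) = 0 := by push_cast; exact h
  rw [ZMod.natCast_eq_zero_iff] at h1
  exact absurd (Nat.le_of_dvd (by positivity) h1) (not_le.mpr (Nat.pow_lt_pow_right (by norm_num) ht))

lemma zero_notMem : (0 : Gam T) ∉ X T := by
  rw [mem_X]
  rintro ⟨t, ht, h⟩
  rw [neg_zero, or_self, mem_layer] at h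
  exact two_pow_ne T ht h.1.symm

/-- the graph -/
noncomputable def Gr : SimpleGraph (Gam T) where
  Adj u v := v - u ∈ X T
  symm := ⟨by
    intro u v h
    rw [← neg_mem_X, neg_sub]
    exact h⟩
  loopless := ⟨by
    intro u h
    rw [sub_self] at h
    exact zero_notMem T h⟩

lemma adj_iff (u v : Gam T) : (Gr T).Adj u v ↔ v - u ∈ X T := Iff.rfl

lemma sum_nbr (F : Gam T → ℝ) (v : Gam T) :
    ∑ u ∈ (Gr T).neighborFinset v, F u = ∑ g ∈ X T, F (v + g) := by
  refine Finset.sum_nbij' (fun u => u - v) (fun g => v + g) ?_ ?_ ?_ ?_ ?_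
  · intro u hu
    rw [SimpleGraph.mem_neighborFinset, adj_iff] at hu
    exact hu
  · intro g hg
    rw [SimpleGraph.mem_neighborFinset, adj_iff, add_sub_cancel_left]
    exact hg
  · intro u _; simp
  · intro g _; simp
  · intro u _; simp

lemma degree_eq (v : Gam T) : (Gr T).degree v = (X T).card := by
  have h := sum_nbr T (fun _ => 1) v
  simp only [sum_const, SimpleGraph.card_neighborFinset_eq_degree, nsmul_eq_mul, mul_one] at h
  exact_mod_cast h

lemma layer_card {t : ℕ} (ht : t ≤ T) : (layer T t).card = 4 ^ (T - t) := by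
  rw [← Ks_card T ht, ← Finset.card_univ]
  symm
  refine Finset.card_bij (fun k _ => ((2 : ZMod (2 ^ T)) ^ t, (k : ZMod (4 ^ T)))) ?_ ?_ ?_
  · intro k _
    rw [mem_layer]
    exact ⟨rfl, k.2⟩
  · intro k _ k' _ h
    exact Subtype.ext (Prod.ext_iff.mp h).2
  · intro g hg
    rw [mem_layer] at hg
    exact ⟨⟨g.2, hg.2⟩, mem_univ _, Prod.ext hg.1.symm rfl⟩

/-- a sum over the generators of a nonnegative even function is bounded by twice the layers -/
lemma sum_X_le (F : Gam T → ℝ) (hF : ∀ g, 0 ≤ F g) (heven : ∀ g, F (-g) = F g) :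
    ∑ g ∈ X T, F g ≤ ∑ t ∈ range T, 2 * ∑ g ∈ layer T t, F g := by
  have h1 : ∀ g ∈ X T, F g ≤ ∑ t ∈ range T,
      ((if g ∈ layer T t then F g else 0) + (if -g ∈ layer T t then F g else 0)) := by
    intro g hg
    obtain ⟨t, ht, h⟩ := (mem_X T).mp hg
    refine le_trans ?_ (Finset.single_le_sum (f := fun t =>
      ((if g ∈ layer T t then F g else 0) + (if -g ∈ layer T t then F g else 0))) ?_
      (mem_range.mpr ht))
    · rcases h with h | h
      · rw [if_pos h]
        have : 0 ≤ (if -g ∈ layer T t then F g else 0) := by split_ifs <;> simp [hF]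
        linarith
      · rw [if_pos h]
        have : 0 ≤ (if g ∈ layer T t then F g else 0) := by split_ifs <;> simp [hF]
        linarith
    · intro s _
      have h2 : 0 ≤ (if -g ∈ layer T s then F g else 0) := by split_ifs <;> simp [hF]
      have h3 : 0 ≤ (if g ∈ layer T s then F g else 0) := by split_ifs <;> simp [hF]
      linarith
  refine (Finset.sum_le_sum h1).trans ?_
  rw [Finset.sum_comm]
  refine Finset.sum_le_sum fun t _ => ?_
  rw [Finset.sum_add_distrib, two_mul]
  have h2 : ∀ f : Gam T → ℝ, (∀ g, 0 ≤ f g) → ∑ g ∈ X T, f g ≤ ∑ g, f g := fun f hf =>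
    Finset.sum_le_sum_of_subset_of_nonneg (subset_univ _) fun g _ _ => hf g
  refine add_le_add ?_ ?_
  · refine (h2 _ fun g => by split_ifs <;> simp [hF]).trans ?_
    rw [Finset.sum_ite_mem, Finset.univ_inter]
  · refine (h2 _ fun g => by split_ifs <;> simp [hF]).trans ?_
    rw [← Equiv.sum_comp (Equiv.neg (Gam T))]
    simp only [Equiv.neg_apply, neg_neg, heven]
    rw [Finset.sum_ite_mem, Finset.univ_inter]

lemma card_X_le : ((X T).card : ℝ) ≤ 3 * 4 ^ T := by
  have h := sum_X_le T (fun _ => 1) (fun _ => zero_le_one) (fun _ => rfl)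
  simp only [sum_const, nsmul_eq_mul, mul_one] at h
  refine h.trans ?_
  have h1 : ∀ m ≤ T, ∑ t ∈ range m, 2 * ((layer T t).card : ℝ) ≤ 8 / 3 * (4 ^ T - 4 ^ (T - m)) := by
    intro m
    induction m with
    | zero => intro _; simp
    | succ m ih =>
      intro hm
      rw [Finset.sum_range_succ, layer_card T (by omega : m ≤ T)]
      have h2 := ih (by omega)
      have h3 : (4 : ℝ) ^ (T - m) = 4 * 4 ^ (T - (m + 1)) := by
        rw [← pow_succ']; congr 1; omega
      push_cast
      rw [h3] at h2 ⊢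
      linarith
  have h2 := h1 T le_rfl
  have h3 : (0 : ℝ) < 4 ^ T := by positivity
  have h4 : (0 : ℝ) < 4 ^ (T - T) := by positivity
  linarith

lemma le_card_X (hT : 0 < T) : (4 : ℝ) ^ T ≤ (X T).card := by
  have h : layer T 0 ⊆ X T := by
    intro g hg
    rw [mem_X]
    exact ⟨0, hT, Or.inl hg⟩
  have h1 := card_le_card h
  rw [layer_card T (Nat.zero_le T), Nat.sub_zero] at h1
  exact_mod_cast h1

/-- layers are bounded by the boundary degree -/
lemma layer_le_out (S : Finset (Gam T)) {t : ℕ} (ht : t < T) (v : Gam T) :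
    (univ.filter fun k : Ks T t => v + ((2 : ZMod (2 ^ T)) ^ t, (k : ZMod (4 ^ T))) ∉ S).card
      ≤ (univ.filter fun u => u ∉ S ∧ (Gr T).Adj v u).card := by
  refine Finset.card_le_card_of_injOn
    (fun k => v + ((2 : ZMod (2 ^ T)) ^ t, (k : ZMod (4 ^ T)))) ?_ ?_
  · intro k hk
    simp only [coe_filter, mem_univ, true_and, Set.mem_ofPred_eq] at hk ⊢
    refine ⟨hk, ?_⟩
    rw [adj_iff, add_sub_cancel_left, mem_X]
    refine ⟨t, ht, Or.inl ?_⟩
    rw [mem_layer]
    exact ⟨rfl, k.2⟩
  · intro k _ k' _ h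
    have h1 := add_left_cancel h
    exact Subtype.ext (Prod.ext_iff.mp h1).2

lemma sum_layer (S : Finset (Gam T)) (t : ℕ) :
    ∑ v ∈ S, ((univ.filter fun k : Ks T t =>
      v + ((2 : ZMod (2 ^ T)) ^ t, (k : ZMod (4 ^ T))) ∉ S).card : ℝ) / Fintype.card (Ks T t)
      = Dt S (Ks T) t := by
  rw [← Finset.sum_div, Dt]
  congr 1
  simp only [D, card_filter]
  push_cast
  rw [Finset.sum_comm]

/-- the main lower bound -/
lemma boundary (hT : 0 < T) (S : Finset (Gam T)) :
    (T : ℝ) * (S.card * ((2 ^ T * 4 ^ T : ℝ) - S.card)) ≤ 3 * (2 ^ T * 4 ^ T) * (2 ^ T *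
      (4 * √3 * ∑ v ∈ S, √(((univ.filter fun u => u ∉ S ∧ (Gr T).Adj v u).card : ℝ)
        / (X T).card))) := by
  have hX := le_card_X T hT
  have hX' := card_X_le T
  have h4 : (0 : ℝ) < 4 ^ T := by positivity
  have hX0 : (0 : ℝ) < (X T).card := lt_of_lt_of_le h4 hX
  have h1 := total T hT S (Ks T) (Ks_zero T)
  have h2 := cheb T S (Ks T) (Ks_anti T)
  have hcH : (Fintype.card (ZMod (4 ^ T)) : ℝ) = 4 ^ T := by rw [ZMod.card]; push_cast; rfl
  rw [hcH] at h1
  have h3 : ∑ t ∈ range T, Dt S (Ks T) t / 2 ^ t ≤ 4 * √3 *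
      ∑ v ∈ S, √(((univ.filter fun u => u ∉ S ∧ (Gr T).Adj v u).card : ℝ) / (X T).card) := by
    simp only [← sum_layer]
    simp only [Finset.sum_div]
    rw [Finset.sum_comm, Finset.mul_sum]
    refine Finset.sum_le_sum fun v _ => ?_
    set N : ℝ := ((univ.filter fun u => u ∉ S ∧ (Gr T).Adj v u).card : ℝ) with hN
    have hN0 : 0 ≤ N := Nat.cast_nonneg _
    have h5 := dyadic (√(3 * (N / (X T).card))) (Real.sqrt_nonneg _) T
      (fun t => ((univ.filter fun k : Ks T t =>
        v + ((2 : ZMod (2 ^ T)) ^ t, (k : ZMod (4 ^ T))) ∉ S).card : ℝ) / Fintype.card (Ks T t))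
      ?_ ?_
    · refine h5.trans (le_of_eq ?_)
      rw [Real.sqrt_mul (by norm_num)]; ring
    · intro t _
      have hc := card_pos (Ks T) t
      rw [div_le_one hc]
      norm_cast
      exact (card_filter_le _ _).trans (le_of_eq card_univ)
    · intro t ht
      rw [Real.sq_sqrt (by positivity), Ks_card T ht.le, div_le_iff₀ (by positivity)]
      have h6 : ((univ.filter fun k : Ks T t =>
        v + ((2 : ZMod (2 ^ T)) ^ t, (k : ZMod (4 ^ T))) ∉ S).card : ℝ) ≤ N := by
        rw [hN]; exact_mod_cast layer_le_out T S ht v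
      refine h6.trans ?_
      push_cast
      have h7 : (4 : ℝ) ^ t * 4 ^ (T - t) = 4 ^ T := by
        rw [← pow_add]; congr 1; omega
      have h8 : (4 : ℝ) ^ t * (3 * (N / (X T).card)) * 4 ^ (T - t)
          = (3 * 4 ^ T / (X T).card) * N := by
        rw [← h7]; ring
      rw [h8]
      have h9 : 1 ≤ 3 * 4 ^ T / ((X T).card : ℝ) := by rw [le_div_iff₀ hX0]; linarith
      nlinarith
  have h5 : (0 : ℝ) < 3 * (2 ^ T * 4 ^ T) := by positivity
  have hT0 : (0 : ℝ) ≤ T := Nat.cast_nonneg T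
  calc (T : ℝ) * (S.card * ((2 ^ T * 4 ^ T : ℝ) - S.card))
      ≤ T * (3 * (2 ^ T * 4 ^ T) * ∑ t ∈ range T, Dt S (Ks T) t) :=
        mul_le_mul_of_nonneg_left h1 hT0
    _ = 3 * (2 ^ T * 4 ^ T) * (T * ∑ t ∈ range T, Dt S (Ks T) t) := by ring
    _ ≤ 3 * (2 ^ T * 4 ^ T) * (2 ^ T * ∑ t ∈ range T, Dt S (Ks T) t / 2 ^ t) :=
        mul_le_mul_of_nonneg_left h2 h5.le
    _ ≤ _ := by
        refine mul_le_mul_of_nonneg_left ?_ h5.le
        exact mul_le_mul_of_nonneg_left h3 (by positivity)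

lemma connected (hT : 0 < T) : (Gr T).Connected := by
  have key : ∀ v, (Gr T).Reachable 0 v := by
    by_contra hcon
    push Not at hcon
    obtain ⟨w, hw⟩ := hcon
    set S : Finset (Gam T) := univ.filter fun v => (Gr T).Reachable 0 v with hS
    have h1 := boundary T hT S
    have h2 : ∀ v ∈ S, √(((univ.filter fun u => u ∉ S ∧ (Gr T).Adj v u).card : ℝ)
        / (X T).card) = 0 := by
      intro v hv
      have h3 : (univ.filter fun u => u ∉ S ∧ (Gr T).Adj v u) = ∅ := by
        rw [Finset.filter_eq_empty_iff]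
        rintro u - ⟨hu1, hu2⟩
        apply hu1
        rw [hS, mem_filter] at hv ⊢
        exact ⟨mem_univ _, hv.2.trans hu2.reachable⟩
      rw [h3]
      simp
    rw [Finset.sum_congr rfl h2] at h1
    simp only [sum_const_zero, mul_zero] at h1
    have h4 : (0 : ℝ) < T := by exact_mod_cast hT
    have h5 : (0 : ℝ) < S.card := by
      have : S.Nonempty := ⟨0, by rw [hS, mem_filter]; exact ⟨mem_univ _, SimpleGraph.Reachable.refl _⟩⟩
      exact_mod_cast this.card_pos
    have h6 : (S.card : ℝ) < 2 ^ T * 4 ^ T := by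
      have h7 : S.card < (univ : Finset (Gam T)).card := by
        refine Finset.card_lt_card ?_
        rw [Finset.ssubset_univ_iff]
        intro h
        have : w ∈ S := by rw [h]; exact mem_univ _
        rw [hS, mem_filter] at this
        exact hw this.2
      rw [card_univ, Fintype.card_prod, ZMod.card, ZMod.card] at h7
      exact_mod_cast h7
    have h8 : 0 < (T : ℝ) * (S.card * ((2 ^ T * 4 ^ T : ℝ) - S.card)) :=
      mul_pos h4 (mul_pos h5 (by linarith))
    linarith
  exact { preconnected := fun x y => (key x).symm.trans (key y), nonempty := ⟨0⟩ }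

/-- the first character -/
noncomputable def chi : AddChar (ZMod (2 ^ T)) ℂ := ZMod.stdAddChar

lemma chi_norm (x : ZMod (2 ^ T)) : ‖chi T x‖ = 1 := by
  rw [chi, ZMod.stdAddChar_apply]
  exact Circle.norm_coe _

lemma chi_neg (x : ZMod (2 ^ T)) : chi T (-x) = (starRingEnd ℂ) (chi T x) := by
  rw [AddChar.map_neg_eq_inv]
  have h := chi_norm T x
  rw [Complex.inv_def, Complex.normSq_eq_norm_sq, h]
  simp

lemma chi_pow (t : ℕ) : (chi T (2 ^ t)).re = Real.cos (2 * Real.pi * 2 ^ t / 2 ^ T) := by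
  have h := ZMod.stdAddChar_coe (N := 2 ^ T) (2 ^ t)
  have h1 : (((2 ^ t : ℤ)) : ZMod (2 ^ T)) = 2 ^ t := by push_cast; rfl
  rw [h1] at h
  rw [chi, h]
  have h2 : (2 * Real.pi * Complex.I * ((2 ^ t : ℤ) : ℂ) / ((2 ^ T : ℕ) : ℂ))
      = ((2 * Real.pi * 2 ^ t / 2 ^ T : ℝ) : ℂ) * Complex.I := by
    push_cast; ring
  rw [h2, Complex.exp_ofReal_mul_I_re]

/-- the sum of the character over the generators -/
noncomputable def R : ℂ := ∑ g ∈ X T, chi T g.1

lemma R_im : (R T).im = 0 := by
  rw [← Complex.conj_eq_iff_im, R, map_sum]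
  refine Finset.sum_nbij' (fun g => -g) (fun g => -g) ?_ ?_ ?_ ?_ ?_
  · intro g hg; rw [neg_mem_X]; exact hg
  · intro g hg; rw [neg_mem_X]; exact hg
  · intro g _; simp
  · intro g _; simp
  · intro g _
    rw [Prod.fst_neg, chi_neg]

/-- the eigenfunction -/
noncomputable def fn (v : Gam T) : ℝ := (chi T v.1).re

lemma walk_fn : (walk (Gr T)).mulVec (fn T) = ((R T).re / (X T).card) • fn T := by
  ext v
  rw [Matrix.mulVec, dotProduct]
  simp only [walk, degree_eq, ite_mul, zero_mul]
  rw [← Finset.sum_filter, ← SimpleGraph.neighborFinset_eq_filter, ← Finset.mul_sum, sum_nbr]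
  have h1 : ∑ g ∈ X T, fn T (v + g) = fn T v * (R T).re := by
    have h2 : ∑ g ∈ X T, fn T (v + g) = (chi T v.1 * R T).re := by
      rw [R, Finset.mul_sum, Complex.re_sum]
      refine Finset.sum_congr rfl fun g _ => ?_
      rw [fn, Prod.fst_add, AddChar.map_add_eq_mul]
    rw [h2, Complex.mul_re, R_im, mul_zero, sub_zero, fn]
  rw [h1, Pi.smul_apply, smul_eq_mul]
  ring

lemma defect_eq : ((X T).card : ℝ) - (R T).re = ∑ g ∈ X T, (1 - (chi T g.1).re) := by
  rw [Finset.sum_sub_distrib, R, Complex.re_sum]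
  simp

lemma defect_term (g : Gam T) : 0 ≤ 1 - (chi T g.1).re := by
  have h1 := Complex.re_le_norm (chi T g.1)
  rw [chi_norm] at h1
  linarith

lemma defect_le : ((X T).card : ℝ) - (R T).re ≤ 4 * Real.pi ^ 2 * T := by
  rw [defect_eq]
  refine (sum_X_le T _ (defect_term T) ?_).trans ?_
  · intro g
    rw [Prod.fst_neg, chi_neg, Complex.conj_re]
  · have h1 : ∀ t ∈ range T, 2 * ∑ g ∈ layer T t, (1 - (chi T g.1).re) ≤ 4 * Real.pi ^ 2 := by
      intro t ht
      rw [mem_range] at ht
      have h2 : ∀ g ∈ layer T t, 1 - (chi T g.1).re ≤ 2 * Real.pi ^ 2 * 4 ^ t / 4 ^ T := by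
        intro g hg
        rw [mem_layer] at hg
        rw [hg.1, chi_pow]
        have h3 := Real.one_sub_sq_div_two_le_cos (x := 2 * Real.pi * 2 ^ t / 2 ^ T)
        have h4 : (2 * Real.pi * 2 ^ t / 2 ^ T) ^ 2 / 2 = 2 * Real.pi ^ 2 * 4 ^ t / 4 ^ T := by
          rw [show (4 : ℝ) = 2 ^ 2 by norm_num, ← pow_mul, ← pow_mul, mul_comm 2 t, mul_comm 2 T,
            pow_mul, pow_mul]
          field_simp
        linarith
      have h5 := Finset.sum_le_sum h2
      rw [sum_const, layer_card T ht.le, nsmul_eq_mul] at h5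
      have h6 : (((4 ^ (T - t) : ℕ)) : ℝ) * (2 * Real.pi ^ 2 * 4 ^ t / 4 ^ T) = 2 * Real.pi ^ 2 := by
        have h7 : (4 : ℝ) ^ T = 4 ^ (T - t) * 4 ^ t := by rw [← pow_add]; congr 1; omega
        push_cast
        rw [h7]
        field_simp
      rw [h6] at h5
      linarith
    refine (Finset.sum_le_sum h1).trans ?_
    rw [sum_const, card_range, nsmul_eq_mul]
    apply le_of_eq; ring

lemma defect_pos (hT : 0 < T) : 0 < ((X T).card : ℝ) - (R T).re := by
  rw [defect_eq]
  refine Finset.sum_pos' (fun g _ => defect_term T g) ⟨((2 : ZMod (2 ^ T)) ^ 0, 0), ?_, ?_⟩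
  · rw [mem_X]
    refine ⟨0, hT, Or.inl ?_⟩
    rw [mem_layer]
    exact ⟨rfl, AddSubgroup.zero_mem _⟩
  · simp only
    rw [chi_pow]
    have h2 : (2 : ℝ) ≤ 2 ^ T := by
      calc (2 : ℝ) = 2 ^ 1 := (pow_one 2).symm
        _ ≤ 2 ^ T := pow_le_pow_right₀ (by norm_num) hT
    have hpi := Real.pi_pos
    have h1 : Real.cos (2 * Real.pi * 2 ^ 0 / 2 ^ T) < Real.cos 0 := by
      apply Real.cos_lt_cos_of_nonneg_of_le_pi le_rfl
      · rw [div_le_iff₀ (by positivity)]
        nlinarith
      · positivity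
    rw [Real.cos_zero] at h1
    linarith

lemma lam2_Gr_le (hT : 0 < T) : lam2 (Gr T) ≤ 4 * Real.pi ^ 2 * T / 4 ^ T := by
  have hX := le_card_X T hT
  have h4 : (0 : ℝ) < 4 ^ T := by positivity
  have hX0 : (0 : ℝ) < (X T).card := lt_of_lt_of_le h4 hX
  have h1 : lam2 (Gr T) ≤ (((X T).card : ℝ) - (R T).re) / (X T).card := by
    refine lam2_le (Gr T) (div_pos (defect_pos T hT) hX0) (f := fn T) ?_ ?_ ?_
    · intro h
      have := congrFun h 0
      simp [fn, AddChar.map_zero_eq_one] at this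
    · rw [walk_fn T]
      congr 1
      field_simp
      ring
    · intro v
      rw [degree_eq]
      exact_mod_cast hX0
  refine h1.trans ?_
  refine div_le_div₀ (by positivity) (defect_le T) h4 hX

lemma phi_Gr_ge (hT : 0 < T) : (T : ℝ) / (42 * 2 ^ T) ≤ phi (Gr T) (1 / 2) := by
  have hX := le_card_X T hT
  have h4 : (0 : ℝ) < 4 ^ T := by positivity
  have hX0 : (0 : ℝ) < (X T).card := lt_of_lt_of_le h4 hX
  have hc : Fintype.card (Gam T) = 2 ^ T * 4 ^ T := by
    rw [Fintype.card_prod, ZMod.card, ZMod.card]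
  refine le_phi (Gr T) (d := (X T).card) (by exact_mod_cast hX0) (degree_eq T) ?_ ?_
  · rw [hc]
    calc 2 = 2 ^ 1 * 1 := by norm_num
      _ ≤ 2 ^ T * 4 ^ T := Nat.mul_le_mul (Nat.pow_le_pow_right (by norm_num) hT)
          (Nat.one_le_pow _ _ (by norm_num))
  · intro S _ hS
    rw [hc] at hS
    have hS' : 2 * (S.card : ℝ) ≤ 2 ^ T * 4 ^ T := by exact_mod_cast hS
    have h1 := boundary T hT S
    set A := ∑ v ∈ S, √(((univ.filter fun u => u ∉ S ∧ (Gr T).Adj v u).card : ℝ)
        / (X T).card) with hA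
    have hA0 : 0 ≤ A := Finset.sum_nonneg fun v _ => Real.sqrt_nonneg _
    set N : ℝ := 2 ^ T * 4 ^ T with hN
    have hN0 : 0 < N := by positivity
    have hT0 : (0 : ℝ) ≤ T := Nat.cast_nonneg T
    have hs0 : (0 : ℝ) ≤ S.card := Nat.cast_nonneg _
    have h2 : (T : ℝ) * (S.card * (N / 2)) ≤ 3 * N * (2 ^ T * (4 * √3 * A)) := by
      refine le_trans ?_ h1
      refine mul_le_mul_of_nonneg_left ?_ hT0
      refine mul_le_mul_of_nonneg_left ?_ hs0
      linarith
    have h3 : √3 ≤ 1.75 := by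
      rw [Real.sqrt_le_left (by norm_num)]; norm_num
    have h5 : (T : ℝ) * S.card ≤ 24 * √3 * 2 ^ T * A := by
      have h6 : (T : ℝ) * S.card * (N / 2) ≤ 24 * √3 * 2 ^ T * A * (N / 2) := by nlinarith
      exact le_of_mul_le_mul_right h6 (by positivity)
    have hfin : (T : ℝ) / (42 * 2 ^ T) * S.card ≤ A := by
      rw [div_mul_eq_mul_div, div_le_iff₀ (by positivity)]
      refine h5.trans ?_
      have h7 : 0 ≤ 2 ^ T * A := mul_nonneg (by positivity) hA0
      calc 24 * √3 * 2 ^ T * A = 24 * ((2 ^ T * A) * √3) := by ring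
        _ ≤ 24 * ((2 ^ T * A) * 1.75) := by
            refine mul_le_mul_of_nonneg_left ?_ (by norm_num)
            exact mul_le_mul_of_nonneg_left h3 h7
        _ = A * (42 * 2 ^ T) := by ring
    convert hfin

end graph

/-- **The upper Houdré–Tetali inequality fails for simple random walks on graphs**: for every
constant `C` some connected graph has `φ_{1/2}(G) > C √λ₂(G)`. -/
theorem result : ¬ ∃ C : ℝ, ∀ (V : Type) [Fintype V] (G : SimpleGraph V), G.Connected →
    2 ≤ Fintype.card V → phi G (1 / 2) ≤ C * √(lam2 G) := by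
  rintro ⟨C, hC⟩
  obtain ⟨T, hTge⟩ := exists_nat_ge ((300 * |C| + 1) ^ 2)
  have hC0 := abs_nonneg C
  have hTpos : 0 < T := by
    have : (0 : ℝ) < T := by
      refine lt_of_lt_of_le ?_ hTge
      positivity
    exact_mod_cast this
  have hTr : (0 : ℝ) < T := by exact_mod_cast hTpos
  have hcard : 2 ≤ Fintype.card (Gam T) := by
    rw [Fintype.card_prod, ZMod.card, ZMod.card]
    calc 2 = 2 ^ 1 * 1 := by norm_num
      _ ≤ 2 ^ T * 4 ^ T := Nat.mul_le_mul (Nat.pow_le_pow_right (by norm_num) hTpos)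
          (Nat.one_le_pow _ _ (by norm_num))
  have h1 := hC (Gam T) (Gr T) (connected T hTpos) hcard
  have h2 := phi_Gr_ge T hTpos
  have h3 : √(lam2 (Gr T)) ≤ 2 * Real.pi * √T / 2 ^ T := by
    rw [Real.sqrt_le_left (by positivity)]
    refine (lam2_Gr_le T hTpos).trans (le_of_eq ?_)
    rw [div_pow, mul_pow, mul_pow, Real.sq_sqrt hTr.le, ← pow_mul, mul_comm T 2, pow_mul]
    norm_num
  have h4 : 300 * |C| + 1 ≤ √T := Real.le_sqrt_of_sq_le hTge
  have h5 : C * √(lam2 (Gr T)) ≤ |C| * (2 * Real.pi * √T / 2 ^ T) :=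
    mul_le_mul (le_abs_self C) h3 (Real.sqrt_nonneg _) hC0
  have h6 : (T : ℝ) / (42 * 2 ^ T) ≤ |C| * (2 * Real.pi * √T / 2 ^ T) := by linarith
  have h7 : (T : ℝ) ≤ 84 * Real.pi * |C| * √T := by
    rw [div_le_iff₀ (by positivity)] at h6
    have h8 : |C| * (2 * Real.pi * √T / 2 ^ T) * (42 * 2 ^ T) = 84 * Real.pi * |C| * √T := by
      field_simp
      ring
    linarith
  have h8 : √(T : ℝ) ≤ 84 * Real.pi * |C| := by
    have h9 : √(T : ℝ) * √T ≤ (84 * Real.pi * |C|) * √T := by
      rw [Real.mul_self_sqrt hTr.le]; exact h7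
    exact le_of_mul_le_mul_right h9 (Real.sqrt_pos.mpr hTr)
  have h9 := Real.pi_lt_d2
  nlinarith

end Pool.Agent.Results.MP_6dcedf_co.Unweighted
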